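import Pool.Agent.Q184.NB.Dom

/-!
# The KLS conjecture in Cheeger form for bodies dominated by laws with few functionals

Q1, in the form of the inequality for sets `A` of measure one half, for all convex bodies `P ⊂ ℝⁿ`
whose uniform distribution is at most `M` times the law of `T X` outside a subset of `P` of at most
`|P| / 200` of the volume. Here `X` is a random vector in `ℝ^m`, `m` arbitrary, which has a density
proportional to `∏_{i < N} h_i(⟪v_i, x⟫)`, `N ≤ m + q`, with arbitrary log-concave functions `h_i` on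
the line, or is uniform on an affine image `S '' K ⊂ ℝ^m` of a body `K ⊂ ℝ^l`, `l ≤ m + r`, given by
few functionals (class `Section B q p`); and `T` is any affine map of `ℝ^m` onto `ℝⁿ`. The body `P`
itself is arbitrary: it need not be given by few functionals. The constant depends on
`q, r, B, p, M` only. The case of a uniform `X`, `T = id`, contains all convex bodies `P` with
`|P \ L| ≤ |P| / 200` and `|L| ≤ M |P|`, where `L` is a polytope with at most `n + q` facets or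
vertices, a section of codimension `q` of an `ℓ_p` ball etc. (theorem `near`).
-/

set_option autoImplicit false

namespace Pool.Agent.Results.MP_8d00da_gt.DominatedBodies

open MeasureTheory Set
open scoped ENNReal InnerProductSpace

/-- Euclidean space of dimension `n` -/
abbrev Euc (n : ℕ) : Type := EuclideanSpace ℝ (Fin n)

/-- convex body `D = -D`: compact, convex, symmetric, with nonempty interior -/
structure SymmetricBody {k : ℕ} (D : Set (Euc k)) : Prop where
  conv : Convex ℝ D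
  comp : IsCompact D
  int : (interior D).Nonempty
  symm : ∀ x ∈ D, -x ∈ D

/-- `a (s₊)^p + b (s₋)^p`, where `a, b ∈ [0, ∞]` and `∞ · 0 = 0` -/
noncomputable def power (p : ℝ) (a b : ℝ≥0∞) (s : ℝ) : ℝ≥0∞ :=
  a * ENNReal.ofReal (max s 0 ^ p) + b * ENNReal.ofReal (max (-s) 0 ^ p)

/-- `K = {x | ⟪v_i, x⟫ ∈ I_i for all i < N}` with closed intervals `I_i` (which may be unbounded),
`N ≤ m + q`: intersections of `m + q` halfspaces or slabs in `ℝ^m` -/
def Slabs (q : ℕ) {m : ℕ} (K : Set (Euc m)) : Prop :=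
  ∃ (N : ℕ) (v : Fin N → Euc m) (I : Fin N → Set ℝ), N ≤ m + q ∧ (∀ i, IsClosed (I i)) ∧
    (∀ i, (I i).OrdConnected) ∧ K = {x | ∀ i, ⟪v i, x⟫_ℝ ∈ I i}

/-- `K = {x | ∑_{i < N} (a_i ⟪v_i, x⟫₊^p + b_i ⟪v_i, x⟫₋^p) ≤ 1}`, `a_i, b_i ∈ [0, ∞]`, `N ≤ m + q` -/
def Sums (p : ℝ) (q : ℕ) {m : ℕ} (K : Set (Euc m)) : Prop :=
  ∃ (N : ℕ) (v : Fin N → Euc m) (a b : Fin N → ℝ≥0∞), N ≤ m + q ∧
    K = {x | ∑ i, power p (a i) (b i) ⟪v i, x⟫_ℝ ≤ 1}

/-- `K = {x | ∑_{j < k_i} |ℓ_ij(x)|^{e_ij} ≤ 1 for all i < M}`, `e_ij ≥ 2`, `∑ k_i ≤ m + q` -/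
def Powers (q : ℕ) {m : ℕ} (K : Set (Euc m)) : Prop :=
  ∃ (M : ℕ) (k : Fin M → ℕ) (e : ∀ i, Fin (k i) → ℝ) (l : ∀ i, Fin (k i) → (Euc m →ₗ[ℝ] ℝ)),
    (∀ i, 1 ≤ k i) ∧ ∑ i, k i ≤ m + q ∧ (∀ i j, 2 ≤ e i j) ∧
    K = {x | ∀ i, ∑ j, |l i j x| ^ e i j ≤ 1}

/-- `K = {x | Q_i x ∈ D_i for all i < M}` with linear maps `Q_i : ℝ^m → ℝ^{k_i}` and symmetric convex
bodies `D_i`, `k_i ≤ B`, `∑ k_i ≤ m + q` -/
def Blocks (B q : ℕ) {m : ℕ} (K : Set (Euc m)) : Prop :=
  ∃ (M : ℕ) (k : Fin M → ℕ) (Q : ∀ i, Euc m →ₗ[ℝ] Euc (k i)) (D : ∀ i, Set (Euc (k i))),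
    (∀ i, k i ≤ B) ∧ ∑ i, k i ≤ m + q ∧ (∀ i, SymmetricBody (D i)) ∧ K = {x | ∀ i, Q i x ∈ D i}

/-- bounded, with nonempty interior, and of one of the four kinds `Slabs`, `Sums`, `Powers`,
`Blocks`, with at most `q` functionals more than the dimension -/
structure Section (B q : ℕ) (p : ℝ) {m : ℕ} (K : Set (Euc m)) : Prop where
  bdd : Bornology.IsBounded K
  int : (interior K).Nonempty
  rep : Slabs q K ∨ Sums p q K ∨ Powers q K ∨ Blocks B q K

/-- log-concave functions `h ≥ 0` on the line -/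
structure LogConcave (h : ℝ → ℝ) : Prop where
  nonneg : ∀ s, 0 ≤ h s
  conc : ∀ x y t : ℝ, 0 < t → t < 1 → h x ^ (1 - t) * h y ^ t ≤ h ((1 - t) * x + t * y)

/-- `∏_{i < N} h_i(⟪v_i, x⟫)` -/
noncomputable def ridge {m N : ℕ} (v : Fin N → Euc m) (h : Fin N → ℝ → ℝ) (x : Euc m) : ℝ :=
  ∏ i, h i ⟪v i, x⟫_ℝ

/-- the measure on `ℝ^m` with density proportional to `w` and total mass one -/
noncomputable def normalised {m : ℕ} (w : Euc m → ℝ) : Measure (Euc m) :=
  (∫⁻ x, ENNReal.ofReal (w x))⁻¹ • volume.withDensity fun x => ENNReal.ofReal (w x)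

/-- the uniform probability measure on `K` -/
noncomputable def unif {n : ℕ} (K : Set (Euc n)) : Measure (Euc n) :=
  (volume K)⁻¹ • volume.restrict K

/-- `μ` has a density proportional to a product of at most `m + q` log-concave ridge functions (the
integral of a function which is not integrable is zero by convention) -/
def RidgeLaw (q : ℕ) {m : ℕ} (μ : Measure (Euc m)) : Prop :=
  ∃ (N : ℕ) (v : Fin N → Euc m) (h : Fin N → ℝ → ℝ), N ≤ m + q ∧ (∀ i, LogConcave (h i)) ∧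
    0 < ∫ x, ridge v h x ∧ μ = normalised (ridge v h)

/-- `μ` is the uniform distribution on an affine image of a body of the class `Section B q p` in a
space of dimension at most `m + r` -/
def ImageLaw (B q r : ℕ) (p : ℝ) {m : ℕ} (μ : Measure (Euc m)) : Prop :=
  ∃ (l : ℕ) (K : Set (Euc l)) (S : Euc l →ᵃ[ℝ] Euc m), l ≤ m + r ∧ Section B q p K ∧
    Function.Surjective S ∧ μ = unif (S '' K)

/-- the uniform distribution on `P` is at most `M ν` outside a subset of volume at most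
`|P| / 200` -/
def Dominated {n : ℕ} (M : ℝ) (P : Set (Euc n)) (ν : Measure (Euc n)) : Prop :=
  ∃ E : Set (Euc n), MeasurableSet E ∧ volume E ≤ volume P / 200 ∧
    (volume P)⁻¹ • volume.restrict (P \ E) ≤ ENNReal.ofReal M • ν

/-- Minkowski (exterior) boundary measure `μ⁺(A)` -/
noncomputable def bdry {n : ℕ} (μ : Measure (Euc n)) (A : Set (Euc n)) : ℝ≥0∞ :=
  Filter.liminf (fun ε : ℝ => (μ (Metric.thickening ε A) - μ A) / ENNReal.ofReal ε)
    (nhdsWithin 0 (Set.Ioi 0))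

/-- the halfspace `⟪u, x⟫ ≤ b` -/
def halfspace {n : ℕ} (u : Euc n) (b : ℝ) : Set (Euc n) := {x | inner ℝ u x ≤ b}

/-- the inequality of Kannan, Lovasz and Simonovits with constant `c` for the uniform measure `μ` on
`K` and sets of measure one half: if `t min(μ H, 1 - μ H) ≤ μ⁺(H)` for all halfspaces `H` then
`c t min(μ A, 1 - μ A) ≤ μ⁺(A)` for all measurable `A` with `μ A = 1/2` -/
def KLSHalf {n : ℕ} (c : ℝ) (K : Set (Euc n)) : Prop :=
  ∀ t : ℝ≥0∞, (∀ (u : Euc n) (b : ℝ), u ≠ 0 →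
      t * min (unif K (halfspace u b)) (1 - unif K (halfspace u b)) ≤
        bdry (unif K) (halfspace u b)) →
    ∀ A : Set (Euc n), MeasurableSet A → unif K A = 1 / 2 →
      ENNReal.ofReal c * t * min (unif K A) (1 - unif K A) ≤ bdry (unif K) A

theorem base_of {B q : ℕ} {p : ℝ} {m : ℕ} {K : Set (Euc m)} (h : Section B q p K) :
    Pool.Agent.Y506.PV.Base q B p K := by
  refine ⟨h.bdd, h.int, ?_⟩
  rcases h.rep with h | h | h | h
  · obtain ⟨N, v, I, hN, hI1, hI2, hK⟩ := h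
    exact Or.inl ⟨N, hN, v, I, hI1, hI2, hK⟩
  · obtain ⟨N, v, a, b, hN, hK⟩ := h
    exact Or.inr (Or.inl ⟨N, hN, v, a, b, hK⟩)
  · obtain ⟨M, k, e, l, hk, hs, he, hK⟩ := h
    refine Or.inr (Or.inr (Or.inl ⟨M, k, hs, hk, e, fun i j =>
      LinearMap.toContinuousLinearMap (l i j), he, ?_⟩))
    rw [hK]
    rfl
  · obtain ⟨M, k, Q, D, hk, hs, hD, hK⟩ := h
    refine Or.inr (Or.inr (Or.inr ⟨M, k, hs, hk, fun i => LinearMap.toContinuousLinearMap (Q i),
      D, fun i => ⟨(hD i).comp.measurableSet, (hD i).conv, (hD i).comp.isBounded, (hD i).symm,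
        (hD i).int⟩, fun i => (hD i).comp.isClosed, ?_⟩))
    rw [hK]
    rfl

/-- the functional inequality for dominated bodies -/
theorem star_dom (q r B : ℕ) (p M : ℝ) (hp : 1 ≤ p) : ∃ c : ℝ, 0 < c ∧
    ∀ (m n : ℕ) (μ : Measure (Euc m)) (T : Euc m →ᵃ[ℝ] Euc n) (P : Set (Euc n)), 1 ≤ n →
    RidgeLaw q μ ∨ ImageLaw B q r p μ → Function.Surjective T → IsCompact P → Convex ℝ P →
    (interior P).Nonempty → Dominated M P (Measure.map T μ) →
    Pool.Agent.Y506.RG.Star c (Pool.Agent.Y506.PV.ind P) := by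
  obtain ⟨κ1, hκ1, G1⟩ := Pool.Agent.Q184.NB.good_ridge q
  obtain ⟨κ2, hκ2, G2⟩ := Pool.Agent.Q184.NB.good_affine q r B p hp
  obtain ⟨c1, hc1, H1⟩ := Pool.Agent.Q184.NB.dom_final κ1 hκ1 M
  obtain ⟨c2, hc2, H2⟩ := Pool.Agent.Q184.NB.dom_final κ2 hκ2 M
  refine ⟨max c1 c2, lt_max_of_lt_left hc1, fun m n μ T P hn hμ hT hPc hPv hPi hdom => ?_⟩
  have hm : 1 ≤ m := by
    have hl : Function.Surjective T.linear := by
      rwa [AffineMap.linear_surjective_iff]
    have := LinearMap.finrank_le_finrank_of_surjective (f := T.linear) hl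
    have h2 : n ≤ m := by simpa using this
    omega
  have hnn : ∀ x, 0 ≤ Pool.Agent.Y506.PV.ind P x :=
    fun x => indicator_nonneg (fun _ _ => zero_le_one) x
  obtain ⟨E, hE, hEv, hle⟩ := hdom
  rcases hμ with h | h
  · obtain ⟨N, v, h, hN, hh, hpos, hμ⟩ := h
    rw [hμ] at hle
    exact Pool.Agent.Y506.RG.Star.mono (le_max_left _ _) hnn
      (H1 m n _ T P E (G1 m N v h hm hN (fun i => (hh i).nonneg) (fun i => (hh i).conc) hpos) hT
        hPc hPv hPi hE hEv hle)
  · obtain ⟨l, K, S, hl, hK, hS, hμ⟩ := h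
    obtain ⟨h1, h2, h3, h4⟩ := G2 m l K S hm hl (base_of hK) hS
    have e := Pool.Agent.Y506.PV.pm_ind (S '' K) h1.measurableSet
    have hu : μ = Pool.Agent.Y506.RG.pm (Pool.Agent.Y506.PV.ind (S '' K)) := by
      rw [e, hμ]
      rfl
    rw [hu] at hle
    exact Pool.Agent.Y506.RG.Star.mono (le_max_right _ _) hnn
      (H2 m n _ T P E h4 hT hPc hPv hPi hE hEv hle)

/-- **KLS (Cheeger form) for bodies dominated by laws with few functionals.** For all `q, r, B, M` and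
`p ≥ 1` there is a constant `c > 0` such that for all `m, n ≥ 1`, all laws `μ` on `ℝ^m` of the class
`RidgeLaw q` or `ImageLaw B q r p`, all affine maps `T` of `ℝ^m` onto `ℝⁿ`, and all convex bodies
`P ⊂ ℝⁿ` whose uniform distribution is at most `M` times the image of `μ` under `T` outside a subset
of volume at most `|P| / 200`, the body `P` satisfies the inequality of Kannan, Lovasz and Simonovits
with constant `c` for all sets of measure one half. -/
theorem result : ∀ (q r B : ℕ) (p M : ℝ), 1 ≤ p → ∃ c : ℝ, 0 < c ∧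
    ∀ (m n : ℕ) (μ : Measure (Euc m)) (T : Euc m →ᵃ[ℝ] Euc n) (P : Set (Euc n)), 1 ≤ n →
    RidgeLaw q μ ∨ ImageLaw B q r p μ → Function.Surjective T → IsCompact P → Convex ℝ P →
    (interior P).Nonempty → Dominated M P (Measure.map T μ) → KLSHalf c P := by
  intro q r B p M hp
  obtain ⟨c, hc, H⟩ := star_dom q r B p M hp
  obtain ⟨c', hc', H'⟩ := Pool.Agent.Y532.PV.che c hc
  refine ⟨c', hc', fun m n μ T P hn hμ hT hPc hPv hPi hdom => ?_⟩
  have h4 := H m n μ T P hn hμ hT hPc hPv hPi hdom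
  intro t ht A hA hA2
  have hprob : IsProbabilityMeasure (unif P) :=
    Pool.Agent.Y506.KS.unif_prob (Pool.Agent.Y506.PV.vol_pos hPi) hPc.measure_lt_top.ne
  have key := H' n _ hPc hPv hPi h4 (unif P) rfl t ht A hA2
  refine le_trans ?_ key
  calc ENNReal.ofReal c' * t * min (unif P A) (1 - unif P A)
      ≤ ENNReal.ofReal c' * t * 1 := mul_le_mul_right ((min_le_left _ _).trans prob_le_one) _
    _ = _ := mul_one _

/-- The case `T = id` and `X` uniform: all convex bodies `P` with `|P \ L| ≤ |P| / 200` and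
`|L| ≤ M |P|`, where `L = S '' K` is an affine image in `ℝⁿ` of a body of the class
`Section B q p` in dimension at most `n + r`. -/
theorem near : ∀ (q r B : ℕ) (p M : ℝ), 1 ≤ p → ∃ c : ℝ, 0 < c ∧
    ∀ (n l : ℕ) (K : Set (Euc l)) (S : Euc l →ᵃ[ℝ] Euc n) (P : Set (Euc n)), 1 ≤ n → l ≤ n + r →
    Section B q p K → Function.Surjective S → IsCompact P → Convex ℝ P → (interior P).Nonempty →
    volume (P \ (S '' K)) ≤ volume P / 200 → volume (S '' K) ≤ ENNReal.ofReal M * volume P →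
    KLSHalf c P := by
  intro q r B p M hp
  obtain ⟨c, hc, H⟩ := result q r B p M hp
  obtain ⟨κ2, hκ2, G2⟩ := Pool.Agent.Q184.NB.good_affine q r B p hp
  refine ⟨c, hc, fun n l K S P hn hl hK hS hPc hPv hPi h1 h2 => ?_⟩
  obtain ⟨g1, g2, g3, g4⟩ := G2 n l K S hn hl (base_of hK) hS
  refine H n n (unif (S '' K)) (AffineMap.id ℝ (Euc n)) P hn (Or.inr ⟨l, K, S, hl, hK, hS, rfl⟩)
    (fun x => ⟨x, rfl⟩) hPc hPv hPi ⟨P \ (S '' K), hPc.measurableSet.diff g1.measurableSet, h1, ?_⟩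
  have e1 : Measure.map (AffineMap.id ℝ (Euc n)) (unif (S '' K)) = unif (S '' K) := by
    have : ((AffineMap.id ℝ (Euc n) : Euc n →ᵃ[ℝ] Euc n) : Euc n → Euc n) = id := rfl
    rw [this, Measure.map_id]
  rw [e1]
  unfold unif
  have e2 : P \ (P \ (S '' K)) = P ∩ (S '' K) := sdiff_sdiff_right_self
  rw [e2, smul_smul]
  have hVp : volume P ≠ 0 := (Pool.Agent.Y506.PV.vol_pos hPi).ne'
  have hVf : volume P ≠ ⊤ := hPc.measure_lt_top.ne
  have hLp : volume (S '' K) ≠ 0 := (Pool.Agent.Y506.PV.vol_pos g3).ne'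
  have hLf : volume (S '' K) ≠ ⊤ := g1.measure_lt_top.ne
  refine Measure.le_iff.2 fun s hs => ?_
  simp only [Measure.smul_apply, smul_eq_mul]
  have h3 : volume.restrict (P ∩ (S '' K)) s ≤ volume.restrict (S '' K) s :=
    Measure.le_iff.1 (Measure.restrict_mono inter_subset_right le_rfl) s hs
  have h4 : (volume P)⁻¹ ≤ ENNReal.ofReal M * (volume (S '' K))⁻¹ := by
    rw [ENNReal.inv_le_iff_inv_le, ENNReal.mul_inv (Or.inr (ENNReal.inv_ne_top.2 hLp))
      (Or.inr (ENNReal.inv_ne_zero.2 hLf)), inv_inv]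
    rw [mul_comm, ← div_eq_mul_inv]
    exact ENNReal.div_le_of_le_mul' h2
  exact mul_le_mul' h4 h3

end Pool.Agent.Results.MP_8d00da_gt.DominatedBodies
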