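import Pool.Agent.Q155.IB.Che
import Pool.Agent.Q155.IB.Cls

/-!
# The KLS conjecture in Cheeger form for images of convex sets of particle configurations

Q1, in the form of the inequality for sets of measure one half (to which the infimum in the Cheeger
constant may be restricted by the theorem of Sternberg and Zumbrun quoted in the problem), for all
convex bodies in `ℝⁿ` which are affine images, with a kernel of dimension at most `r`, of convex
bodies `K` in the space of configurations of `N` particles in `ℝ^d` which are invariant under
permutations of the particles within `q` species. The constant depends on `d`, `q` and `r` only; `N`,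
the numbers of particles of the species, `n` and the affine map are arbitrary, and no central
symmetry is assumed. For `d = q = 1` these are all images of corank at most `r` of all convex bodies
of `ℝ^N` invariant under permutations of the coordinates.

New compared with `ParticlesCheeger` (starting files): there `K = -K` is assumed and only `K` itself,
in the coordinates in which the group acts by permutations, is treated; here `K` need not be
symmetric, and its linear images have no symmetry at all (for `r = 0` they are all the affine
positions of `K`, whose Cheeger constants and halfspace constants change in different ways, and for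
`r ≥ 1` the uniform measure of the image is not a marginal of the uniform measure of `K`). The bodies
of `ImagesOfSections` are given by few more functionals than the dimension; here the number of
facets is not restricted.

Method. The covariance operator of the uniform measure of `K` commutes with the group; its square
root is a polynomial in it and commutes with the group too, so the isotropic position of `K` can be
chosen invariant, and the variance inequality for Lipschitz functions of the starting module
`TH594.KP` gives the concentration of Lipschitz functions, relative to the covariance, for all linear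
images of the uniform measure (`Q155.IB.cc_kl`). It passes to the uniform measure of the image
`T '' K` by `Y506.PV.cc_img`, and gives the isoperimetric inequality by the heat flow argument of the
modules `KH`, `Y506.PV.stb` and `Y532.PV.che` (starting files).
-/

set_option autoImplicit false

namespace Pool.Agent.Results.MP_8d00da_gt.ImagesOfParticleBodies

open MeasureTheory Set
open scoped ENNReal InnerProductSpace

/-- Euclidean space of dimension `n` -/
abbrev Euc (n : ℕ) : Type := EuclideanSpace ℝ (Fin n)

/-- configurations of `N` particles in `ℝ^d`: `x (i, α)` is the coordinate `α` of the particle `i` -/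
abbrev Conf (N d : ℕ) : Type := EuclideanSpace ℝ (Fin N × Fin d)

/-- `K` does not change when the particles are permuted within their species; `b i` is the species
of the particle `i`. -/
def Invariant {N d q : ℕ} (b : Fin N → Fin q) (K : Set (Conf N d)) : Prop :=
  ∀ σ : Equiv.Perm (Fin N), (∀ i, b (σ i) = b i) → ∀ x y : Conf N d,
    (∀ i α, y (i, α) = x (σ i, α)) → x ∈ K → y ∈ K

/-- convex body: compact, convex, with nonempty interior -/
structure ConvexBody {N d : ℕ} (K : Set (Conf N d)) : Prop where
  conv : Convex ℝ K
  comp : IsCompact K
  int : (interior K).Nonempty

/-- Minkowski (exterior) boundary measure `μ⁺(A)` -/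
noncomputable def bdry {n : ℕ} (μ : Measure (Euc n)) (A : Set (Euc n)) : ℝ≥0∞ :=
  Filter.liminf (fun ε : ℝ => (μ (Metric.thickening ε A) - μ A) / ENNReal.ofReal ε)
    (nhdsWithin 0 (Set.Ioi 0))

/-- the halfspace `⟪u, x⟫ ≤ b` -/
def halfspace {n : ℕ} (u : Euc n) (b : ℝ) : Set (Euc n) := {x | inner ℝ u x ≤ b}

/-- the uniform probability measure on `K` -/
noncomputable def unif {n : ℕ} (K : Set (Euc n)) : Measure (Euc n) :=
  (volume K)⁻¹ • volume.restrict K

/-- the inequality of Kannan, Lovasz and Simonovits with constant `c` for the uniform measure `μ` on
`K` and sets of measure one half: if `t min(μ H, 1 - μ H) ≤ μ⁺(H)` for all halfspaces `H` then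
`c t min(μ A, 1 - μ A) ≤ μ⁺(A)` for all measurable `A` with `μ A = 1/2` -/
def KLSHalf {n : ℕ} (c : ℝ) (K : Set (Euc n)) : Prop :=
  ∀ t : ℝ≥0∞, (∀ (u : Euc n) (b : ℝ), u ≠ 0 →
      t * min (unif K (halfspace u b)) (1 - unif K (halfspace u b)) ≤
        bdry (unif K) (halfspace u b)) →
    ∀ A : Set (Euc n), MeasurableSet A → unif K A = 1 / 2 →
      ENNReal.ofReal c * t * min (unif K A) (1 - unif K A) ≤ bdry (unif K) A

/-- **KLS (Cheeger form) for images of convex sets of particle configurations.** For all `d, q ≥ 1`
and `r` there is a constant `c > 0` such that for all `N`, every map `b` of the `N` particles onto the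
`q` species, every convex body `K` of configurations of `N` particles in `ℝ^d` which is invariant under
permutations of the particles preserving the species, and every affine map `T` of the space of
configurations onto `ℝⁿ`, `n ≥ 1`, `N d ≤ n + r`, the body `T '' K` satisfies the inequality of Kannan,
Lovasz and Simonovits with constant `c` for all sets of measure one half. -/
theorem result : ∀ d q r : ℕ, 1 ≤ d → 1 ≤ q → ∃ c : ℝ, 0 < c ∧
    ∀ (N n : ℕ) (b : Fin N → Fin q) (K : Set (Conf N d)) (T : Conf N d →ᵃ[ℝ] Euc n),
    1 ≤ n → N * d ≤ n + r → Function.Surjective b → ConvexBody K → Invariant b K →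
    Function.Surjective T → KLSHalf c (T '' K) := by
  intro d q r hd hq
  obtain ⟨C, hC, HKL⟩ := Pool.Agent.Q155.IB.kl_part
  have hfac := Pool.Agent.TH594.KP.fac_pos hq hd
  obtain ⟨c, hc, H⟩ := Pool.Agent.Q155.IB.che_kl r (C * Pool.Agent.TH594.KP.fac q d)
    (mul_pos hC hfac)
  refine ⟨c, hc, fun N n b K T hn hcard hb hK hinv hT => ?_⟩
  have hswp : ∀ g ∈ Pool.Agent.TH594.KP.GG (Fin d) b, ∀ x, g x ∈ K ↔ x ∈ K := by
    rintro g ⟨k, l, hkl, rfl⟩ x
    constructor
    · intro hx
      refine hinv (Equiv.swap k l) (Pool.Agent.TH594.KP.swap_fix hkl) _ x (fun i α => ?_) hx
      rw [Pool.Agent.TH594.KP.swp_apply]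
      simp
    · intro hx
      exact hinv (Equiv.swap k l) (Pool.Agent.TH594.KP.swap_fix hkl) x _
        (fun i α => Pool.Agent.TH594.KP.swp_apply k l x (i, α)) hx
  intro t ht A hA hA2
  exact H (Fin N × Fin d) (Pool.Agent.TH594.KP.GG (Fin d) b) (HKL N d q b hb hd hq) n K T hn
    (by simpa using hcard) hK.comp hK.conv hK.int hswp hT t ht A hA2

end Pool.Agent.Results.MP_8d00da_gt.ImagesOfParticleBodies
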