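import Pool.Agent.Q155.IB.Che
import Pool.Agent.Q155.IB.Large

/-!
# The KLS conjecture in Cheeger form for images of bodies with tree or matrix symmetries

Q1, in the form of the inequality for sets of measure one half (to which the infimum in the Cheeger
constant may be restricted by the theorem of Sternberg and Zumbrun quoted in the problem), for all
convex bodies in `ℝⁿ` which are affine images, with a kernel of dimension at most `r`, of a convex
body `K` (no central symmetry is assumed) with a large group of symmetries of one of three kinds: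

(a) `Tree Λ`: `K` is a set of functions on the leaves of a rooted tree of depth `k ≤ Λ` whose nodes of
level `j` have `m_j` children, `∏_j (1 + log (m_0 ⋯ m_{j-1}) / m_j)² ≤ Λ`, invariant under the
automorphisms of the tree;

(b) `Rotations Λ`: `K` is a set of tuples of `q` real `N × N` matrices and `m` vectors of `ℝ^N`, or a
subset of a rotation invariant subspace, `q + m ≤ Λ`, `N ≥ 3` arbitrary, invariant under
`X_j ↦ g X_j gᵀ`, `v_i ↦ g v_i`, `g ∈ SO(N)`;

(c) `Conjugations Λ`: `K` is a set of `q ≤ Λ`-tuples of real symmetric or complex Hermitian `N × N`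
matrices, `N ≥ 3` arbitrary, invariant under simultaneous conjugation by orthogonal or unitary
matrices.

The constant depends only on `Λ` and `r`; the dimensions are arbitrary.

New compared with the starting files (`HierarchicalExchangeableCheeger`, `TensorTuplesCheeger`,
`ConjugationInvariantCheeger`): there `K = -K` is assumed and only `K` itself, in the coordinates in
which the group acts by isometries, is treated; here all affine positions of `K` and all its images
of corank at most `r`, which have no symmetry, are treated.

Method. The covariance operator of the uniform measure of `K` commutes with the group and so does its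
square root, a polynomial in it; so `K` has an invariant isotropic position, and the variance
inequalities of the starting modules `TH597.HX`, `TH591.TT`, `H888R2.KT` give the concentration of
Lipschitz functions, relative to the covariance, for all linear images of the uniform measure
(`Q155.IB.cc_kl`). It passes to the uniform measure of `T '' K` by `Y506.PV.cc_img`, and gives the
isoperimetric inequality by the heat flow argument of the modules `KH` (starting files).
-/

set_option autoImplicit false

namespace Pool.Agent.Results.MP_8d00da_gt.ImagesOfTreeAndMatrixBodies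

open MeasureTheory Set
open scoped ENNReal InnerProductSpace
open Pool.Agent.Q155.IB.Large (Tree Rotations Conjugations)

/-- Euclidean space of dimension `n` -/
abbrev Euc (n : ℕ) : Type := EuclideanSpace ℝ (Fin n)

/-- the three kinds of large groups, of complexity at most `Λ` -/
def LargeGroup {κ : Type} [Fintype κ] (Λ : ℕ)
    (G : Set (EuclideanSpace ℝ κ ≃ₗᵢ[ℝ] EuclideanSpace ℝ κ)) : Prop :=
  Tree Λ G ∨ Rotations Λ G ∨ Conjugations Λ G

/-- convex body (compact, convex, with nonempty interior) invariant under the isometries in `G` -/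
structure InvariantBody {κ : Type} [Fintype κ]
    (G : Set (EuclideanSpace ℝ κ ≃ₗᵢ[ℝ] EuclideanSpace ℝ κ)) (K : Set (EuclideanSpace ℝ κ)) :
    Prop where
  conv : Convex ℝ K
  comp : IsCompact K
  int : (interior K).Nonempty
  inv : ∀ g ∈ G, g '' K = K

/-- Minkowski (exterior) boundary measure `μ⁺(A)` -/
noncomputable def bdry {n : ℕ} (μ : Measure (Euc n)) (A : Set (Euc n)) : ℝ≥0∞ :=
  Filter.liminf (fun ε : ℝ => (μ (Metric.thickening ε A) - μ A) / ENNReal.ofReal ε)
    (nhdsWithin 0 (Set.Ioi 0))

/-- the halfspace `⟪u, x⟫ ≤ b` -/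
def halfspace {n : ℕ} (u : Euc n) (b : ℝ) : Set (Euc n) := {x | inner ℝ u x ≤ b}

/-- the uniform probability measure on `K` -/
noncomputable def unif {n : ℕ} (K : Set (Euc n)) : Measure (Euc n) :=
  (volume K)⁻¹ • volume.restrict K

/-- the inequality of Kannan, Lovasz and Simonovits with constant `c` for the uniform measure `μ` on
`K` and sets of measure one half: if `t min(μ H, 1 - μ H) ≤ μ⁺(H)` for all halfspaces `H` then
`c t min(μ A, 1 - μ A) ≤ μ⁺(A)` for all measurable `A` with `μ A = 1/2` -/
def KLSHalf {n : ℕ} (c : ℝ) (K : Set (Euc n)) : Prop :=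
  ∀ t : ℝ≥0∞, (∀ (u : Euc n) (b : ℝ), u ≠ 0 →
      t * min (unif K (halfspace u b)) (1 - unif K (halfspace u b)) ≤
        bdry (unif K) (halfspace u b)) →
    ∀ A : Set (Euc n), MeasurableSet A → unif K A = 1 / 2 →
      ENNReal.ofReal c * t * min (unif K A) (1 - unif K A) ≤ bdry (unif K) A

/-- the variance inequality of the starting modules for the three kinds of groups -/
theorem kl_large (Λ : ℕ) : ∃ C : ℝ, 0 < C ∧ ∀ (κ : Type) [Fintype κ]
    (G : Set (EuclideanSpace ℝ κ ≃ₗᵢ[ℝ] EuclideanSpace ℝ κ)), LargeGroup Λ G →
    Pool.Agent.Q155.IB.KL2 G C := by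
  obtain ⟨C₁, hC₁, H₁⟩ := Pool.Agent.Q155.IB.Large.kl_tree Λ
  obtain ⟨C₂, hC₂, H₂⟩ := Pool.Agent.Q155.IB.Large.kl_rot Λ
  obtain ⟨C₃, hC₃, H₃⟩ := Pool.Agent.Q155.IB.Large.kl_conj Λ
  refine ⟨C₁ + C₂ + C₃, by positivity, fun κ _ G hG => ?_⟩
  rcases hG with h | h | h
  · exact (H₁ κ G h).mono (by linarith)
  · exact (H₂ κ G h).mono (by linarith)
  · exact (H₃ κ G h).mono (by linarith)

/-- **KLS (Cheeger form) for images of bodies with tree or matrix symmetries.** For all `Λ` and `r`
there is a constant `c > 0` such that for all convex bodies `K ⊂ ℝ^κ` invariant under a large group of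
complexity at most `Λ` and all affine maps `T` of `ℝ^κ` onto `ℝⁿ`, `n ≥ 1`, with a kernel of dimension at
most `r`, the body `T '' K` satisfies the inequality of Kannan, Lovasz and Simonovits with constant `c`
for all sets of measure one half. -/
theorem result : ∀ Λ r : ℕ, ∃ c : ℝ, 0 < c ∧ ∀ (κ : Type) [Fintype κ]
    (G : Set (EuclideanSpace ℝ κ ≃ₗᵢ[ℝ] EuclideanSpace ℝ κ)), LargeGroup Λ G →
    ∀ K : Set (EuclideanSpace ℝ κ), InvariantBody G K →
    ∀ (n : ℕ) (T : EuclideanSpace ℝ κ →ᵃ[ℝ] Euc n), 1 ≤ n → Fintype.card κ ≤ n + r →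
    Function.Surjective T → KLSHalf c (T '' K) := by
  intro Λ r
  obtain ⟨C, hC, HKL⟩ := kl_large Λ
  obtain ⟨c, hc, H⟩ := Pool.Agent.Q155.IB.che_kl r C hC
  refine ⟨c, hc, fun κ _ G hG K hK n T hn hcard hT t ht A _ hA2 => ?_⟩
  exact H κ G (HKL κ G hG).kl n K T hn hcard hK.comp hK.conv hK.int
    (Pool.Agent.Q155.IB.Large.set_inv hK.inv) hT t ht A hA2

end Pool.Agent.Results.MP_8d00da_gt.ImagesOfTreeAndMatrixBodies
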