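import Pool.Agent.W695.KH.Chee2
import Pool.Agent.Q197.RG.Img

/-!
# The KLS conjecture in Cheeger form for convex bodies invariant under finite reflection groups

Q1 for the convex bodies `K` in `ℝ^κ` invariant under a finite reflection group all of whose
irreducible components are of type `A` or `D` (a group of type `B` contains the group of type `D`; by
the classification all irreducible finite reflection groups of rank at least 9 are of type `A`, `B` or
`D`), with `N` components, each generated by the exchanges of at least `m` vectors, and for their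
affine images, for sets of measure `1/2` (to which the infimum in the Cheeger constant may be
restricted by a known theorem), with a constant which depends only on `D (1 + log N / m)²`. Here `q` is
the dimension of the space of the fixed vectors and `D = q + 1` or `D` is the KLS constant (Poincare
form) of the dimension `q`. In particular the constant is absolute for all groups without fixed
vectors the number of whose components is at most exponential in their dimensions, for example for
all convex bodies with the symmetries of a regular simplex, a cross-polytope or a demicube. Minkowski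
boundary measure.

1. For symmetric bodies `K = -K` the constant is `c / (√D (1 + log N / m))`, `c` absolute.
2. For all invariant bodies `K`, symmetric or not, and all their affine images `T '' K`, `T` a surjective
   affine map with a kernel of dimension at most `r₀`, the constant depends only on `r₀` and on an upper
   bound `Λ` of `D (1 + log N / m)²`. The bodies `T '' K` need not have any symmetry.

Method: the variance bound of `Pool.Agent.Q197.RG.Fin` (discrete Bochner inequality for symmetric
functions, Hardy inequality for functions odd under an exchange, even and odd parts, tails of the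
block sums, KLS inequality in dimension `q` for the law of the centre of a Gaussian tilt). Then the
formalised implication from Poincare to Cheeger inequalities of the starting files (modules `KH`) for
1, and the modules `Pool.Agent.Q155.IB` of this repository (isotropic position, bodies which are not
symmetric, images) for 2.
-/

set_option autoImplicit false

namespace Pool.Agent.Results.MP_8d00da_gt.ReflectionGroups

open MeasureTheory Set
open scoped ENNReal InnerProductSpace

variable {κ ι ν : Type} [Fintype κ] [Fintype ι] [DecidableEq ι] [Fintype ν] [DecidableEq ν] {n r : ℕ}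

/-- the number of the indices `i` with `b i = j` -/
def size {ι : Type} [Fintype ι] {n : ℕ} (b : ι → Fin n) (j : Fin n) : ℕ :=
  (Finset.univ.filter fun i => b i = j).card

/-- The data of a reflection group with components of types `A` and `D`. For each `j : Fin n` the
vectors `u i`, `b i = j`, are the vertices of a regular simplex centred at the origin of a subspace
`E_j` of `ℝ^κ`, `dim E_j = size b j - 1`; for each `j : Fin r` the vectors `v i`, `d i = j`, are an
orthonormal basis of a subspace `E'_j`, `dim E'_j = size d j`; all these spaces are mutually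
orthogonal. -/
structure Roots (b : ι → Fin n) (u : ι → EuclideanSpace ℝ κ) (d : ν → Fin r)
    (v : ν → EuclideanSpace ℝ κ) : Prop where
  surj : Function.Surjective b
  surj' : Function.Surjective d
  gram : ∀ i j, ⟪u i, u j⟫_ℝ =
    (if i = j then 1 else 0) - (if b i = b j then 1 / (size b (b i) : ℝ) else 0)
  orth : ∀ i j, ⟪v i, v j⟫_ℝ = if i = j then 1 else 0
  perp : ∀ i j, ⟪u i, v j⟫_ℝ = 0

/-- the dimension `q` of the space `F` of the vectors fixed by the group -/
noncomputable def fixedDim (u : ι → EuclideanSpace ℝ κ) (v : ν → EuclideanSpace ℝ κ) : ℕ :=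
  Module.finrank ℝ ((Submodule.span ℝ (range u ∪ range v))ᗮ : Submodule ℝ (EuclideanSpace ℝ κ))

/-- `K` is invariant under the reflections of the group: the
exchanges of two vertices `u i`, `u j` of one of the simplices, the exchanges of two vectors `v i`,
`v j` of one of the orthonormal bases, the exchanges of `v i` and `-v j`. -/
structure Invariant (b : ι → Fin n) (u : ι → EuclideanSpace ℝ κ) (d : ν → Fin r)
    (v : ν → EuclideanSpace ℝ κ) (K : Set (EuclideanSpace ℝ κ)) : Prop where
  refl : ∀ i j, b i = b j → ∀ x, x ∈ K → x - ⟪u i - u j, x⟫_ℝ • (u i - u j) ∈ K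
  refl_sub : ∀ i j, d i = d j → ∀ x, x ∈ K → x - ⟪v i - v j, x⟫_ℝ • (v i - v j) ∈ K
  refl_add : ∀ i j, i ≠ j → d i = d j → ∀ x, x ∈ K → x - ⟪v i + v j, x⟫_ℝ • (v i + v j) ∈ K

/-- `Var ⟪θ, X⟫ ≤ s ‖θ‖²` for all `θ`: the covariance matrix of `μ` has norm at most `s`. -/
def CovLe {κ : Type} [Fintype κ] (μ : Measure (EuclideanSpace ℝ κ)) (s : ℝ) : Prop :=
  ∀ θ : EuclideanSpace ℝ κ,
    ProbabilityTheory.evariance (fun x => ⟪θ, x⟫_ℝ) μ ≤ ENNReal.ofReal (s * ‖θ‖ ^ 2)

/-- `D` is a KLS constant in dimension `q`: `Var f ≤ D s E ‖∇ f‖²` for all `C¹` functions `f` and all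
log-concave probability densities `ρ` on `ℝ^q` with bounded support whose covariance matrix has norm
at most `s`. -/
def KLSConst (q : ℕ) (D : ℝ) : Prop :=
  ∀ ρ : EuclideanSpace ℝ (Fin q) → ℝ, (∀ x, 0 ≤ ρ x) → Measurable ρ →
    (∀ x y, ∀ t : ℝ, 0 < t → t < 1 → ρ x ^ (1 - t) * ρ y ^ t ≤ ρ ((1 - t) • x + t • y)) →
    (∃ R : ℝ, ∀ x, R < ‖x‖ → ρ x = 0) → ∀ μ : Measure (EuclideanSpace ℝ (Fin q)),
    μ = volume.withDensity (fun x => ENNReal.ofReal (ρ x)) → IsProbabilityMeasure μ →
    ∀ s : ℝ, 0 < s → CovLe μ s → ∀ f : EuclideanSpace ℝ (Fin q) → ℝ, ContDiff ℝ 1 f →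
    ProbabilityTheory.variance f μ ≤ D * s * ∫ x, ‖fderiv ℝ f x‖ ^ 2 ∂μ

/-- `D ≥ 1` is at least `q + 1` or a KLS constant in dimension `q` -/
def Admissible (q : ℕ) (D : ℝ) : Prop := 1 ≤ D ∧ ((q : ℝ) + 1 ≤ D ∨ KLSConst q D)

theorem ad_of {q : ℕ} {D : ℝ} (h : Admissible q D) : Pool.Agent.Q197.RG.AD q D :=
  ⟨h.1, h.2.imp id fun h2 => Pool.Agent.Q197.RG.kpo_of h2⟩

/-- convex body: compact, convex, with nonempty interior -/
structure ConvexBody (K : Set (EuclideanSpace ℝ κ)) : Prop where
  conv : Convex ℝ K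
  comp : IsCompact K
  int : (interior K).Nonempty

/-- Minkowski (exterior) boundary measure `μ⁺(A)` -/
noncomputable def bdry (μ : Measure (EuclideanSpace ℝ κ)) (A : Set (EuclideanSpace ℝ κ)) : ℝ≥0∞ :=
  Filter.liminf (fun ε : ℝ => (μ (Metric.thickening ε A) - μ A) / ENNReal.ofReal ε)
    (nhdsWithin 0 (Set.Ioi 0))

/-- the halfspace `⟪u, x⟫ ≤ t` -/
def halfspace (u : EuclideanSpace ℝ κ) (t : ℝ) : Set (EuclideanSpace ℝ κ) := {x | inner ℝ u x ≤ t}

/-- the uniform probability measure on `K` -/
noncomputable def unif (K : Set (EuclideanSpace ℝ κ)) : Measure (EuclideanSpace ℝ κ) :=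
  (volume K)⁻¹ • volume.restrict K

/-- the inequality of Kannan, Lovasz and Simonovits with constant `c` for the uniform measure `μ` on
`K` and sets of measure `1/2`: if `t min(μ H, 1 - μ H) ≤ μ⁺(H)` for all halfspaces `H` then
`c t / 2 ≤ μ⁺(A)` for all measurable `A` with `μ A = 1/2`. -/
def KLSBoundHalf (c : ℝ) (K : Set (EuclideanSpace ℝ κ)) : Prop :=
  ∀ t : ℝ≥0∞, (∀ (u : EuclideanSpace ℝ κ) (r : ℝ), u ≠ 0 →
      t * min (unif K (halfspace u r)) (1 - unif K (halfspace u r)) ≤
        bdry (unif K) (halfspace u r)) →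
    ∀ A : Set (EuclideanSpace ℝ κ), MeasurableSet A → unif K A = 1 / 2 →
      ENNReal.ofReal c * t * (1 / 2) ≤ bdry (unif K) A

/-- **KLS (Cheeger form) for finite reflection groups.** Let `W` be the group given by `n` mutually
orthogonal regular simplices (type `A`) and `r` finite orthonormal systems (type `D`), `n + r ≥ 1`, with
at least `m ≥ 2` vectors each, `q` the dimension of the space of the fixed vectors and `D = q + 1`, or
any KLS constant `D ≥ 1` of the dimension `q`.

1. There is an absolute constant `c > 0` such that every `W`-invariant convex body `K = -K` in `ℝ^κ`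
   satisfies: if `t min(μ H, 1 - μ H) ≤ μ⁺(H)` for all halfspaces `H`, then `μ⁺(A) ≥ c' t / 2` for all
   measurable `A` with `μ A = 1/2`, where `μ` is uniform on `K` and
   `c' = c / (√D (1 + log (n + r) / m))`.
2. For all `Λ` and `r₀` there is a constant `c > 0` such that for all `W` with
   `D (1 + log (n + r) / m)² ≤ Λ`, all `W`-invariant convex bodies `K` in `ℝ^κ` (symmetric or not) and all
   affine maps `T` of `ℝ^κ` onto `ℝ^k`, `k ≥ 1`, `dim ℝ^κ ≤ k + r₀`, the same is true for the body
   `T '' K`, with `c' = c`. -/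
theorem result : (∃ c : ℝ, 0 < c ∧ ∀ (κ ι ν : Type) [Fintype κ] [Nonempty κ] [Fintype ι]
    [DecidableEq ι] [Fintype ν] [DecidableEq ν] (n r m : ℕ), 1 ≤ n + r → 2 ≤ m →
    ∀ (b : ι → Fin n) (u : ι → EuclideanSpace ℝ κ) (d : ν → Fin r) (v : ν → EuclideanSpace ℝ κ),
    Roots b u d v → (∀ j, m ≤ size b j) → (∀ j, m ≤ size d j) →
    ∀ D : ℝ, Admissible (fixedDim u v) D →
    ∀ K : Set (EuclideanSpace ℝ κ), ConvexBody K → Invariant b u d v K → (∀ x ∈ K, -x ∈ K) →
    KLSBoundHalf (c / (Real.sqrt D * (1 + Real.log (n + r : ℕ) / m))) K) ∧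
    ∀ (Λ : ℝ) (r₀ : ℕ), ∃ c : ℝ, 0 < c ∧ ∀ (κ ι ν : Type) [Fintype κ] [Fintype ι]
    [DecidableEq ι] [Fintype ν] [DecidableEq ν] (n r m : ℕ), 1 ≤ n + r → 2 ≤ m →
    ∀ (b : ι → Fin n) (u : ι → EuclideanSpace ℝ κ) (d : ν → Fin r) (v : ν → EuclideanSpace ℝ κ),
    Roots b u d v → (∀ j, m ≤ size b j) → (∀ j, m ≤ size d j) →
    ∀ D : ℝ, Admissible (fixedDim u v) D → D * (1 + Real.log (n + r : ℕ) / m) ^ 2 ≤ Λ →
    ∀ K : Set (EuclideanSpace ℝ κ), ConvexBody K → Invariant b u d v K →
    ∀ (k : ℕ) (T : EuclideanSpace ℝ κ →ᵃ[ℝ] EuclideanSpace ℝ (Fin k)), 1 ≤ k →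
    Fintype.card κ ≤ k + r₀ → Function.Surjective T → KLSBoundHalf c (T '' K) := by
  have half : min (1 / 2 : ℝ≥0∞) (1 - 1 / 2) = 1 / 2 := by
    have : (1 : ℝ≥0∞) - 1 / 2 = 1 / 2 := by
      rw [one_div]
      exact ENNReal.one_sub_inv_two
    rw [this, min_self]
  refine ⟨?_, ?_⟩
  · obtain ⟨c, hc, H⟩ := Pool.Agent.W695.KH.cheeger_half
    obtain ⟨C₂, hC₂, h₂⟩ := Pool.Agent.Q197.RG.weakD
    refine ⟨c / Real.sqrt C₂, by positivity, ?_⟩
    intro κ ι ν _ _ _ _ _ _ n r m hN hm b u d v h hb hd D hD K hK hinv hsymm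
    have hfac := Pool.Agent.Q197.RG.fac_pos hD.1 (n + r) m
    have hRt : Pool.Agent.Q197.RG.Rt b u v := ⟨⟨h.gram⟩, h.orth, h.perp⟩
    have hS := Pool.Agent.Q197.RG.set_of hRt hinv.refl hinv.refl_sub hinv.refl_add
    have key := H κ K hK.conv hK.comp hK.int hsymm
      (C₂ * Pool.Agent.Q197.RG.fac D (n + r) m) (mul_pos hC₂ hfac) (by
        intro A hA hprob hnn hmeas hlc hiso s hs hcov w hw hwb
        exact h₂ h.surj h.surj' hRt hN hm hb hd D (ad_of hD) K hS _ hnn hmeas hlc hiso hprob s hs
          hcov w hw hwb)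
    intro t ht A _ hA2
    have h1 : ENNReal.ofReal (c / Real.sqrt (C₂ * Pool.Agent.Q197.RG.fac D (n + r) m)) * t *
        min (unif K A) (1 - unif K A) ≤ bdry (unif K) A := key (unif K) rfl t ht A hA2
    have e : c / Real.sqrt (C₂ * Pool.Agent.Q197.RG.fac D (n + r) m) =
        c / Real.sqrt C₂ / (Real.sqrt D * (1 + Real.log (n + r : ℕ) / m)) := by
      rw [Real.sqrt_mul hC₂.le, Pool.Agent.Q197.RG.sqrt_fac hD.1, div_div]
    rw [e] at h1
    have h3 : min (unif K A) (1 - unif K A) = 1 / 2 := by rw [hA2, half]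
    rw [h3] at h1
    exact h1
  · intro Λ r₀
    obtain ⟨C, hC, HKL⟩ := Pool.Agent.Q197.RG.kl_le
    have hpos : 0 < C * max Λ 1 := mul_pos hC (lt_max_of_lt_right one_pos)
    obtain ⟨c, hc, H⟩ := Pool.Agent.Q155.IB.che_kl r₀ (C * max Λ 1) hpos
    refine ⟨c, hc, ?_⟩
    intro κ ι ν _ _ _ _ _ n r m hN hm b u d v h hb hd D hD hΛ K hK hinv k T hk hcard hT t ht A _ hA2
    have hRt : Pool.Agent.Q197.RG.Rt b u v := ⟨⟨h.gram⟩, h.orth, h.perp⟩
    have hS := Pool.Agent.Q197.RG.set_of hRt hinv.refl hinv.refl_sub hinv.refl_add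
    have h1 : ENNReal.ofReal c * t * min (unif (T '' K) A) (1 - unif (T '' K) A) ≤
        bdry (unif (T '' K)) A :=
      H κ _ (HKL (max Λ 1) h.surj h.surj' hRt hN hm hb hd D (ad_of hD)
        (hΛ.trans (le_max_left _ _))) k K T hk hcard hK.comp hK.conv hK.int hS hT t ht A hA2
    have h3 : min (unif (T '' K) A) (1 - unif (T '' K) A) = 1 / 2 := by rw [hA2, half]
    rw [h3] at h1
    exact h1

end Pool.Agent.Results.MP_8d00da_gt.ReflectionGroups
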